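import Mathlib
import Pool.Agent.Y586.CT.Core

set_option autoImplicit false

/-!
# `Z`-cofinite abelian groups and countably many Hausdorff group topologies
-/

namespace Pool.Agent.Results.MP_79deac_al.CountablyManyTopologies

open Cardinal Set Topology

universe u

/-- The Zariski topology of an abelian group: the sets `{x | n • x = g}`, `n : ℤ`, `g : G`, form
a subbase of its closed sets. -/
def zariski (G : Type u) [AddCommGroup G] : TopologicalSpace G :=
  TopologicalSpace.generateFrom {s : Set G | ∃ (n : ℤ) (g : G), s = {x : G | n • x = g}ᶜ}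

/-- `G` is `Z`-cofinite: its Zariski topology is the cofinite topology, i.e. its closed sets are
exactly `G` and the finite subsets of `G`. -/
def ZCofinite (G : Type u) [AddCommGroup G] : Prop :=
  ∀ s : Set G, IsClosed[zariski G] s ↔ (s = Set.univ ∨ s.Finite)

/-- `t` is a Hausdorff group topology on the abelian group `G`. -/
def HausdorffGroupTop {G : Type u} [AddCommGroup G] (t : TopologicalSpace G) : Prop :=
  @IsTopologicalAddGroup G t _ ∧ @T2Space G t

/-- The topologies `t 0, t 1, …` are jointly independent: a set is open in all of them exactly when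
it is open in the cofinite topology, i.e. when it is empty or has finite complement. -/
def JointlyIndependent {G : Type u} (t : ℕ → TopologicalSpace G) : Prop :=
  ∀ s : Set G, (∀ i, IsOpen[t i] s) ↔ (s = ∅ ∨ sᶜ.Finite)

/-- An abelian group whose cardinality is an uncountable strong limit cardinal of countable
cofinality. -/
def Special (G : Type u) : Prop :=
  ℵ₀ < #G ∧ IsStrongLimit #G ∧ ∃ S : ℕ → Set G, (⋃ n, S n) = Set.univ ∧ ∀ n, #(S n) < #G

theorem general (G : Type u) [AddCommGroup G] (hG : Special G) (t : ℕ → TopologicalSpace G)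
    (ht : ∀ i, HausdorffGroupTop (t i)) :
    ∃ D : Set G, D.Infinite ∧ D.Countable ∧ ∀ E ⊆ D, ∀ i, IsClosed[t i] E := by
  obtain ⟨h0, hs, S, hS, hSc⟩ := hG
  exact Pool.Agent.Y586.CT.exists_common_closed hs h0 S
    (fun x => by
      have : x ∈ ⋃ n, S n := by rw [hS]; trivial
      exact Set.mem_iUnion.1 this) hSc t (fun i => (ht i).1) (fun i => (ht i).2)

theorem not_independent (G : Type u) [AddCommGroup G] (hG : Special G)
    (t : ℕ → TopologicalSpace G)
    (ht : ∀ i, HausdorffGroupTop (t i)) : ¬ JointlyIndependent t := by
  intro h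
  obtain ⟨D, hD1, hD2, hD3⟩ := general G hG t ht
  have hD := hD3 D le_rfl
  rcases (h Dᶜ).1 (fun i => (@isOpen_compl_iff G D (t i)).2 (hD i)) with h3 | h3
  · have h4 : D = Set.univ := Set.compl_empty_iff.1 h3
    rw [h4] at hD2
    have h5 : #G ≤ ℵ₀ := by
      rw [← mk_univ]
      exact hD2.le_aleph0
    exact absurd h5 (not_le.2 hG.1)
  · rw [compl_compl] at h3
    exact hD1 h3

/-- rational vector spaces are `Z`-cofinite -/
theorem zcofinite_of_module (G : Type u) [AddCommGroup G] [Module ℚ G] : ZCofinite G := by
  have hopen : ∀ s : Set G, IsOpen[zariski G] s → (s = ∅ ∨ sᶜ.Finite) := by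
    intro s hs
    induction hs with
    | basic s hs =>
      obtain ⟨n, g, rfl⟩ := hs
      rw [compl_compl]
      by_cases hn : n = 0
      · subst hn
        by_cases hg : g = 0
        · left
          subst hg
          simp
        · right
          have : {x : G | (0 : ℤ) • x = g} = ∅ := by
            ext x
            simp only [zero_smul, Set.mem_setOf_eq, Set.mem_empty_iff_false, iff_false]
            exact fun h => hg h.symm
          rw [this]
          exact Set.finite_empty
      · right
        apply Set.Subsingleton.finite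
        intro x hx y hy
        have hxy : n • x = n • y := Eq.trans hx (Eq.symm hy)
        have hn' : (n : ℚ) ≠ 0 := by exact_mod_cast hn
        rw [← Int.cast_smul_eq_zsmul ℚ, ← Int.cast_smul_eq_zsmul ℚ] at hxy
        exact smul_right_injective G hn' hxy
    | univ => right; simp
    | inter s t _ _ hs ht =>
      rcases hs with hs | hs
      · left; simp [hs]
      · rcases ht with ht | ht
        · left; simp [ht]
        · right
          rw [Set.compl_inter]
          exact hs.union ht
    | sUnion S _ ih =>
      by_cases h : ∀ s ∈ S, s = ∅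
      · left
        exact Set.sUnion_eq_empty.2 h
      · right
        push Not at h
        obtain ⟨s, hs, hne⟩ := h
        have := (ih s hs).resolve_left (by
          intro e
          rw [e] at hne
          exact Set.not_nonempty_empty hne)
        exact this.subset (Set.compl_subset_compl.2 (Set.subset_sUnion_of_mem hs))
  intro s
  constructor
  · intro hs
    have h1 : IsOpen[zariski G] sᶜ := (@isOpen_compl_iff G s (zariski G)).2 hs
    rcases hopen _ h1 with h | h
    · left; exact Set.compl_empty_iff.1 h
    · right; rwa [compl_compl] at h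
  · rintro (rfl | hs)
    · exact @isClosed_univ G (zariski G)
    · have h1 : ∀ g : G, IsClosed[zariski G] {g} := by
        intro g
        rw [← @isOpen_compl_iff G {g} (zariski G)]
        apply TopologicalSpace.isOpen_generateFrom_of_mem
        refine ⟨1, g, ?_⟩
        congr 1
        ext x
        simp
      have h2 : s = ⋃ g ∈ s, {g} := by simp
      rw [h2]
      exact @Set.Finite.isClosed_biUnion G G (zariski G) s _ hs (fun g _ => h1 g)

/-- iterated power cardinals -/
noncomputable def tower (μ : Cardinal.{u}) : ℕ → Cardinal.{u}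
  | 0 => max μ ℵ₀
  | n + 1 => 2 ^ tower μ n

theorem exists_special (μ : Cardinal.{u}) :
    ∃ (G : Type u) (_ : AddCommGroup G), μ < #G ∧ Special G ∧ ZCofinite G := by
  set κ : Cardinal.{u} := ⨆ n, tower μ n with hκ
  have hbdd : BddAbove (Set.range (tower μ)) := Cardinal.bddAbove_of_small
  have hle : ∀ n, tower μ n ≤ κ := fun n => le_ciSup hbdd n
  have hlt : ∀ n, tower μ n < κ := fun n => (Cardinal.cantor (tower μ n)).trans_le (hle (n + 1))
  have h0 : ℵ₀ < κ := (le_max_right μ ℵ₀).trans_lt (hlt 0)
  have hμ : μ < κ := (le_max_left μ ℵ₀).trans_lt (hlt 0)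
  have hsl : IsStrongLimit κ := by
    refine ⟨(aleph0_pos.trans h0).ne', fun x hx => ?_⟩
    obtain ⟨n, hn⟩ := exists_lt_of_lt_ciSup' hx
    exact (Cardinal.power_le_power_left two_ne_zero hn.le).trans_lt (hlt (n + 1))
  haveI : Infinite κ.out := by
    rw [Cardinal.infinite_iff, Cardinal.mk_out]
    exact h0.le
  have hcard : #(κ.out →₀ ℚ) = κ := by
    rw [mk_finsupp_lift_of_infinite, Cardinal.mk_out]
    simp [h0.le]
  refine ⟨κ.out →₀ ℚ, inferInstance, ?_, ⟨?_, ?_, ?_⟩, zcofinite_of_module _⟩
  · rw [hcard]; exact hμ
  · rw [hcard]; exact h0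
  · rw [hcard]; exact hsl
  · have h1 : #(κ.out →₀ ℚ) ≤ #(Σ n : ULift.{u} ℕ, (tower μ n.down).out) := by
      rw [hcard, Cardinal.mk_sigma]
      simp only [Cardinal.mk_out]
      refine ciSup_le fun n => ?_
      exact Cardinal.le_sum (fun n : ULift.{u} ℕ => tower μ n.down) ⟨n⟩
    obtain ⟨f⟩ := h1
    refine ⟨fun n => {g | (f g).1 = ⟨n⟩}, ?_, ?_⟩
    · ext g
      simp only [Set.mem_iUnion, Set.mem_setOf_eq, Set.mem_univ, iff_true]
      exact ⟨(f g).1.down, rfl⟩
    · intro n
      rw [hcard]
      refine lt_of_le_of_lt ?_ (hlt n)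
      have h2 : #({g | (f g).1 = (⟨n⟩ : ULift.{u} ℕ)} : Set (κ.out →₀ ℚ)) ≤
          #((tower μ n).out) := by
        refine Cardinal.mk_le_of_injective (f := fun g =>
          cast (congrArg (fun k : ULift.{u} ℕ => (tower μ k.down).out) g.2) (f g.1).2) ?_
        intro a b hab
        apply Subtype.ext
        apply f.injective
        apply Sigma.ext
        · exact a.2.trans b.2.symm
        · have h3 := (cast_heq (congrArg (fun k : ULift.{u} ℕ => (tower μ k.down).out) a.2)
            (f a.1).2).symm
          have h4 := cast_heq (congrArg (fun k : ULift.{u} ℕ => (tower μ k.down).out) b.2)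
            (f b.1).2
          exact h3.trans ((heq_of_eq hab).trans h4)
      rwa [Cardinal.mk_out] at h2

/-- **Negative answer, for countably many topologies.** (1) There are (arbitrarily large)
uncountable `Z`-cofinite abelian groups such that no sequence of Hausdorff group topologies has
the cofinite topology as its intersection. (2) More generally, if the cardinality of an abelian
group `G` is an uncountable strong limit cardinal of countable cofinality, then any countably many
Hausdorff group topologies on `G` have a common countably infinite set all of whose subsets are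
closed in all of them; so their intersection is not the cofinite topology. -/
theorem result :
    (∀ μ : Cardinal.{u}, ∃ (G : Type u) (_ : AddCommGroup G), μ < #G ∧ Uncountable G ∧
      ZCofinite G ∧ ∀ t : ℕ → TopologicalSpace G,
        (∀ i, HausdorffGroupTop (t i)) → ¬ JointlyIndependent t) ∧
    (∀ (G : Type u) [AddCommGroup G], ℵ₀ < #G → IsStrongLimit #G →
      (∃ S : ℕ → Set G, (⋃ n, S n) = Set.univ ∧ ∀ n, #(S n) < #G) →
      ∀ t : ℕ → TopologicalSpace G, (∀ i, HausdorffGroupTop (t i)) →
        (∃ D : Set G, D.Infinite ∧ D.Countable ∧ ∀ E ⊆ D, ∀ i, IsClosed[t i] E) ∧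
        ¬ JointlyIndependent t) := by
  refine ⟨fun μ => ?_, fun G _ h0 hs hS t ht =>
    ⟨general G ⟨h0, hs, hS⟩ t ht, not_independent G ⟨h0, hs, hS⟩ t ht⟩⟩
  obtain ⟨G, inst, hμ, hsp, hz⟩ := exists_special μ
  refine ⟨G, inst, hμ, ?_, hz, fun t ht => not_independent G hsp t ht⟩
  rw [← Cardinal.aleph0_lt_mk_iff]
  exact hsp.1

end Pool.Agent.Results.MP_79deac_al.CountablyManyTopologies
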